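import Pool.Agent.W908.K.K12

set_option autoImplicit false

/-!
# A polynomial hierarchy that is easy on average, and `UP ∩ coUP` with exponential circuit size
-/

namespace Pool.Agent.Results.MP_79d702_lc.ExponentialHeuristica

open Pool.Agent.H620R2.Gauge Pool.Agent.H591R3.PHG Pool.Agent.W908 Pool.Agent.W908.RS
  Pool.Agent.W908.KS

/-- There is an oracle `O` relative to which
(1) every language of the polynomial hierarchy is easy on average under every distribution
that can be sampled in polynomial time relative to `O`, with error at most `1 / (n + 1) ^ c`, for
every `c` and every `n`;
(2) some language `L`, in `UP` and in `coUP`, is exponentially hard in the worst case even with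
advice of exponential length, at all large lengths: for every `D` in polynomial time relative to
`O` there is `d` such that for every `n ≥ d` and every string `h` of length at most `2 ^ (n / d)`
the answer `D ⟨x, h⟩` is wrong for some input `x` of length `n`. So `L` needs circuits of
exponential size (with gates for `O`) at all large lengths. -/
theorem result : ∃ O : Oracle,
    (∀ (k : ℕ) (L : Set (List Bool)), IsSig O k L → ∀ F : List Bool → List Bool, IsFP O F →
      ∀ (q : Polynomial ℕ) (c : ℕ), EasyOnSamples O L F q c) ∧
    ∃ L : Set (List Bool), IsUP O L ∧ IsUP O Lᶜ ∧ ExpHard O L :=
  Pool.Agent.W908.KS.mainK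

end Pool.Agent.Results.MP_79d702_lc.ExponentialHeuristica
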