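import Pool.Agent.W896.RK.Sat

/-!
# Circuits for satisfiability have superlinear formal degree

A Boolean circuit with AND gates of fan-in two, OR gates of any fan-in and negations at the inputs
accepts if and only if it has a proof tree all of whose leaves are true literals; the formal degree
in an input bit is the largest number of leaves with this bit. (Circuits of polynomial size and
polynomial total degree are non-uniform LOGCFL, that is, non-uniform nondeterministic machines with
logarithmic memory, a stack and polynomial time; the circuits of degree one in every bit are the
decomposable ones, DNNFs, and a nondeterministic syntactic read-`k` branching program is a circuit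
of degree at most `k` in every bit.)

Let such a circuit of size `s` decide the satisfiability, or the unsatisfiability, of the 3-CNF
formulas with `M` clauses. We consider only the signs of the first literals of the clauses; the
other bits of the formula may be read arbitrarily often. If the total formal degree in these `M`
bits is at most `k M` then `M ≤ 2 ^ (52 (k + 1)) (log s + 1)`. So a circuit of size
`2 ^ (M ^ (1 - ε))` has formal degree `Ω (M log M)`, and a circuit of formal degree `O (M)` has size
`2 ^ Ω (M)`.

Proof. Every proof tree is decomposed into `O (k ^ 2)` pieces (subtrees with at most one hole), each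
of which depends on at most a `1 / O (k)` fraction of the variables, such that every variable occurs
in at most `O (k)` pieces (`Pool.Agent.W896.RK.claim`). A random colouring of the pieces with two
colours gives a rectangle (`Pool.Agent.W896.RK.exists_color`). The hard instances are the bilinear
forms of bipartite expanders of degree `2 ^ O (k)`: between any two sets with a `2 ^ (- O (k))`
fraction of the vertices there is a large triangular submatrix, which bounds the discrepancy
(`Pool.Agent.W896.RK.exists_tri`, `Pool.Agent.W896.RK.rect_disc`); such a form is expressed by a
3-CNF formula of linear size in which the signs of some literals are the variables.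
-/

set_option autoImplicit false

namespace Pool.Agent.Results.MP_79d702_lc.FormalDegree

open Pool.Agent.H554R2.Cnf Pool.Agent.W896.RK

/-- Let `M ≤ 2 ^ ℓ`, let `Q` be the set of the satisfiable, or that of the unsatisfiable, 3-CNF
formulas with `M` clauses and variables named by words of `ℓ` bits, and let the circuit `U` accept
exactly the formulas in `Q`. If the sum, over the `M` sign bits of the first literals of the
clauses, of the formal degrees of `U` in these bits is at most `k M`, then
`M ≤ 2 ^ (52 (k + 1)) (⌊log₂ s⌋ + 1)`, where `s` is the number of gates. -/
theorem result (k M ℓ : ℕ) (hℓ : M ≤ 2 ^ ℓ) (Q : (Idx M ℓ → Bool) → Prop)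
    (hQ : Q = Sat3 ∨ Q = fun w => ¬ Sat3 w) (U : Circ (Idx M ℓ))
    (hU : ∀ w, U.Val w U.out ↔ Q w) (d : U.G → Fin M → ℕ)
    (hd : IsDeg U (fun j => (sgn ℓ j : Idx M ℓ)) d) (hk : ∑ j, d U.out j ≤ k * M) :
    M ≤ 2 ^ (52 * (k + 1)) * (Nat.log 2 (Fintype.card U.G) + 1) :=
  final k M ℓ hℓ Q hQ U hU d hd hk

end Pool.Agent.Results.MP_79d702_lc.FormalDegree
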