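import Pool.Agent.W901.FC.LawA

/-!
# `NP ⊆ P/poly` and the prediction of answers: how many help bits give how much advantage

Polynomial time is Mathlib's `Turing.TM2ComputableInPolyTime`, for functions on bit strings;
`InPpoly` is the class of the languages decided in polynomial time with a polynomially long advice
string that depends only on the length of the input (the usual form of `P/poly`).

Let a polynomial-time algorithm with polynomially long advice make predictions for the answers to the
`m` questions whether `y` is in `A`, `y` in a list of `m` strings; it may abstain on some of them. How
much can the number of right predictions differ from the number of wrong ones, for every list, if the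
algorithm gets in addition `k` bits of help, which may depend on the list in any way?
(The advice depends only on the length of the code of the list.)

`HelpAdvOn (Short ε) k t A`: the difference is at least `t` for all lists of `m ≥ m₀` strings of length
at most `m ^ ε`; `HelpAdvOn Every k t A`: for all lists of `m ≥ m₀` strings; `HelpAll k t A`: for all
lists of `m ≥ m₀` strings, without advice.

There is a constant `C` such that for all `k`, `t` with `t ^ 2 ≥ C * 2 ^ k` or
`t ^ 2 ≥ (k + 1) * 2 ^ (k + 1)` and all `ε > 0`

`NP ⊆ P/poly` iff `HelpAdvOn (Short ε) k t A` for some `NP`-hard set `A` iff
`HelpAdvOn Every k t A` for all `A` in `NP`,

while `HelpAll k t A` holds for all sets `A` whatsoever if `(t - 1) ^ 2 < 2 ^ k`. So without help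
(`k = 0`) the difference `1` is free, even without advice, and the difference `2` gives
`NP ⊆ P/poly`; with one bit of help the difference `2` is free and `3` gives `NP ⊆ P/poly`.

Proof. The first entries of the advice are kept as a table. Single-valued `NP` functions `x ↦ w` have
polynomially long candidate lists (with the table): the prefixes of `w` are found in a search tree,
where a prefix `v` survives only if for all seeds of a hash function the `K = 2 ^ k` vectors of
predictions for the label questions (whether the bit `i` of the label of the prefix of `w` is one) are
compatible with the label of `v`. The labels are all sign vectors with at most `K` changes of sign, up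
to `K` further exceptional entries: polynomially many. By the theorem of Borsuk and Ulam (in the form
of Hobby and Rice) there is a step function with `K` jumps which is orthogonal to all `K` vectors, and
by Spencer's theorem (linear discrepancy) its at most `K` fractional entries can be rounded such that
all `K` scalar products are smaller than `C * √ K`. So for each seed one label is incompatible;
pairwise independent hashing of more than `2 * F ^ 2` prefixes to `F` labels hits the incompatible
label for some seed. So few survive. The vector of the answers to parallel `NP` questions is the value
of a single-valued `NP` function once the number of positive answers is known, so it has a short list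
of candidates (which depends on the table), and the algorithm of `Pool.Agent.H579R6` (the theorem
behind `MP_8f56c4_lc.ParallelQueriesCollapse`), with the table, decides every set in `NP`.

Free advantage: the rows of a Hadamard matrix, by Parseval's equation.
-/

set_option autoImplicit false

namespace Pool.Agent.Results.MP_79d702_lc.HelpBitsLaw

open Pool.Agent.NPC Pool.Agent.W901.AT Pool.Agent.W901.NU Pool.Agent.W901.FH

theorem result : ∃ C : ℕ, ∀ (k t : ℕ) (ε : ℝ),
    (0 < ε → C * 2 ^ k ≤ t ^ 2 ∨ (k + 1) * 2 ^ (k + 1) ≤ t ^ 2 → List.TFAE
      [∀ L : Set (List Bool), InNP L → InPpoly L,
        ∃ A : Set (List Bool), NPHard A ∧ HelpAdvOn (Short ε) k t A,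
        ∀ A : Set (List Bool), InNP A → HelpAdvOn Every k t A]) ∧
    ((t - 1) ^ 2 < 2 ^ k → ∀ A : Set (List Bool), HelpAll k t A) :=
  help_law_ppoly

end Pool.Agent.Results.MP_79d702_lc.HelpBitsLaw
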