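import Pool.Agent.W969.MC.Nd2

/-!
Nondeterministic circuits of linear size, against deterministic circuits with few NOT gates: there
is a monotone function of `N` bits that is defined by a list of clauses of total size `O(N)` with
`O(N)` further variables (it is `1` on `x` if some values of the further variables satisfy all
clauses; so it has nondeterministic circuits of size `O(N)`), but every deterministic circuit with
`φ log N` NOT gates, `φ < 1`, has size at least `exp (N ^ ((1 - φ) / 2 - ε))`.

This holds for real circuits and two-sided error. The circuits compute with real numbers, their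
monotone gates compute arbitrary nondecreasing real functions of two arguments (Pudlák's model), and
there are some arbitrary further gates, for instance `t` NOT gates; `freedom` is the product of the
numbers (fan-in + 1) over the further gates, that is `2 ^ t` for `t` NOT gates. A randomised circuit
is a finite nonempty family of circuits from which one is chosen uniformly at random; it accepts the
ones of the function with probability at least `p + N ^ (-δ)` and the zeros with probability at most
`p` (`p = 0` and a family with one member for an ordinary circuit).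

Result: if the freedom is at most `F`, then the size is at least `N ^ (δ l)` for every `l` with
`l ^ 2 F ≤ N ^ (1 - ε)`. The range `F ≤ N ^ (1 - ε)` is the full one up to `ε`, since
`log N + O(1)` NOT gates are enough for circuits of polynomial size for all functions of `N` bits
that have such circuits (Markov, Fischer).

The function: `K` disjoint copies of a constraint satisfaction problem on a sparse expanding
hypergraph (which tuples of values are allowed is the input); the function is `1` if some copy is
satisfiable. The proof is an average case version of the approximation method.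
-/

namespace Pool.Agent.Results.MP_79d702_lc.LinearNondeterminism

/-- The total size of a list of clauses: the sum of the numbers (length of the clause + 1). The
clauses use the variables `x i`, `i < N`, and the further variables `y i`, `i < d`. The literal
`(v, true)` is the variable `v`, the literal `(v, false)` its negation. -/
def clauseSize {N d : ℕ} (L : List (List ((Fin N ⊕ Fin d) × Bool))) : ℕ :=
  (L.map fun c => c.length + 1).sum

/-- All clauses hold at `(x, y)`: each contains a literal that holds. -/
def Satisfies {N d : ℕ} (L : List (List ((Fin N ⊕ Fin d) × Bool))) (x : Fin N → Bool)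
    (y : Fin d → Bool) : Prop :=
  ∀ c ∈ L, ∃ l ∈ c, Sum.elim x y l.1 = l.2

/-- The function defined by the list of clauses with nondeterminism: it is `1` at `x` if some `y`
satisfies all clauses. -/
def NDef {N d : ℕ} (L : List (List ((Fin N ⊕ Fin d) × Bool))) (x : Fin N → Bool) : Prop :=
  ∃ y : Fin d → Bool, Satisfies L x y

/-- A real circuit with the input bits `Inp` and the gates `0, ..., s - 1`. Gate `i` has `w i`
inputs, namely `a i j`, each an input bit (`0` or `1`) or an earlier gate, and its value on the
input `x` is `val x i`. The gates outside `T` compute nondecreasing functions of at most two real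
numbers. The output of a gate `i` in `T` depends in an arbitrary way on the bits that tell whether
`θ i j` is at most the `j`-th input (a NOT gate, for instance). The circuit accepts if the value of
gate `out` is at least `τ`. -/
structure RealCircuit (Inp : Type) where
  s : ℕ
  T : Finset (Fin s)
  w : Fin s → ℕ
  a : (i : Fin s) → Fin (w i) → Inp ⊕ Fin s
  op : (i : Fin s) → (Fin (w i) → ℝ) → ℝ
  θ : (i : Fin s) → Fin (w i) → ℝ
  val : (Inp → Bool) → Fin s → ℝ
  out : Fin s
  τ : ℝ
  earlier : ∀ i j k, a i j = Sum.inr k → k < i
  mono : ∀ i ∉ T, w i ≤ 2 ∧ Monotone (op i)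
  free : ∀ i ∈ T, ∀ z z' : Fin (w i) → ℝ, (∀ j, θ i j ≤ z j ↔ θ i j ≤ z' j) → op i z = op i z'
  spec : ∀ x i, val x i = op i (fun j =>
    Sum.elim (fun p => if x p = true then (1 : ℝ) else 0) (val x) (a i j))

/-- The circuit accepts the input. -/
def RealCircuit.Accepts {Inp : Type} (C : RealCircuit Inp) (x : Inp → Bool) : Prop :=
  C.τ ≤ C.val x C.out

/-- The size: the number of gates plus the number of inputs of the gates in `T`. -/
def RealCircuit.size {Inp : Type} (C : RealCircuit Inp) : ℕ := C.s + ∑ i ∈ C.T, C.w i

/-- The product of the numbers `w i + 1` over the gates in `T`. It is `1` if `T` is empty and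
`2 ^ t` if `T` consists of `t` NOT gates. -/
def RealCircuit.freedom {Inp : Type} (C : RealCircuit Inp) : ℕ := ∏ i ∈ C.T, (C.w i + 1)

/-- The probability that the input is accepted by a circuit that is chosen uniformly at random from
the family `C`. -/
noncomputable def acceptance {R Inp : Type} (C : R → RealCircuit Inp) (x : Inp → Bool) : ℝ :=
  (Nat.card {ρ : R // (C ρ).Accepts x} : ℝ) / Nat.card R

/-- For every `ε > 0` there are `c`, `δ > 0` and `l0` such that for all `N`, `l ≥ l0` and all real
`F ≥ 1` with `l ^ 2 F ≤ N ^ (1 - ε)` there are `d` and a list of clauses over `N + d` variables of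
total size at most `c N` such that the function of `N` bits that it defines with nondeterminism is
monotone and the following holds. If a finite nonempty family of real circuits whose numbers
`freedom` are at most `F` accepts every one of the function with probability at least
`p + N ^ (-δ)` and every zero with probability at most `p`, then some member has size at least
`N ^ (δ l)`. -/
theorem result (ε : ℝ) (hε : 0 < ε) :
    ∃ (c : ℕ) (δ : ℝ), 0 < δ ∧ ∃ l0 : ℕ, ∀ (N l : ℕ) (F : ℝ), l0 ≤ l → 1 ≤ F →
      (l : ℝ) ^ 2 * F ≤ (N : ℝ) ^ (1 - ε) →
      ∃ (d : ℕ) (L : List (List ((Fin N ⊕ Fin d) × Bool))), clauseSize L ≤ c * N ∧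
        (∀ x x' : Fin N → Bool, x ≤ x' → NDef L x → NDef L x') ∧
        ∀ (R : Type) [Finite R] [Nonempty R] (C : R → RealCircuit (Fin N)) (p : ℝ),
          (∀ x, NDef L x → p + (N : ℝ) ^ (-δ) ≤ acceptance C x) →
          (∀ x, ¬ NDef L x → acceptance C x ≤ p) →
          (∀ ρ, ((C ρ).freedom : ℝ) ≤ F) →
          ∃ ρ, (N : ℝ) ^ (δ * l) ≤ ((C ρ).size : ℝ) := by
  obtain ⟨c, δ, hδ, l0, H⟩ := Pool.Agent.W969.MC.nd_main ε hε
  refine ⟨c, δ, hδ, l0, ?_⟩
  intro N l F hl hF hF2
  obtain ⟨d, L, h1, h2, h3⟩ := H N l F hl hF hF2
  refine ⟨d, L, h1, h2, ?_⟩
  intro R _ _ C p hyes hno hfree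
  let _ : Fintype R := Fintype.ofFinite R
  have hR : (0 : ℝ) < Fintype.card R := by exact_mod_cast Fintype.card_pos
  have hacc : ∀ x, acceptance C x * Fintype.card R =
      ({ρ : R | (C ρ).Accepts x}.ncard : ℝ) := by
    intro x
    unfold acceptance
    rw [Nat.card_eq_fintype_card (α := R), div_mul_cancel₀ _ hR.ne']
    rfl
  set C' : R → Pool.Agent.W969.MC.RC (Fin N) := fun ρ => ⟨(C ρ).s, (C ρ).T, (C ρ).w, (C ρ).a,
    (C ρ).op, (C ρ).θ, (C ρ).val, (C ρ).out, (C ρ).τ, (C ρ).earlier, (C ρ).mono, (C ρ).free,
    (C ρ).spec⟩ with hC'
  refine h3 R C' p ?_ ?_ hfree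
  · intro x hx
    refine le_trans (mul_le_mul_of_nonneg_right (hyes x hx) hR.le) (le_of_eq (hacc x))
  · intro x hx
    refine le_trans (le_of_eq (hacc x).symm) (mul_le_mul_of_nonneg_right (hno x hx) hR.le)

end Pool.Agent.Results.MP_79d702_lc.LinearNondeterminism
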