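import Pool.Agent.W954.Sav.Nonunif

/-!
# NP versus P/poly and the monotone complexity of NP-complete languages on thin layers

Let `L` be a monotone `NP`-complete language, for instance `HalfClique` (does a graph, given by its
adjacency matrix, have a clique that contains at least half of the vertices?). On one slice of the
cube `{0,1}^n` (the inputs with exactly `m` ones) monotone circuits are as good as circuits with NOT
gates (Berkowitz 1982).

We study circuits with at most `t` NOT gates which decide `L` on a layer of `w 2 ^ t` consecutive
slices; for `t = 0` these are monotone circuits for `L` on `w` slices. The unconditional lower bound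
proved here for `HalfClique` is `2 ^ d` for `w = d ^ 9`: it is exponential in a power of `w`. On the
other hand, if `NP` is contained in `P/poly`, then size `(n + 2) ^ (w + a)` is enough for one
constant `a` and all `n`, `w`, `t` and all layers. Conversely, if for one single constant `w ≥ 1`
monotone circuits of polynomial size for `L` on `w` slices exist, or circuits of polynomial size for
`L` with `⌈log (n + 1)⌉ - c` NOT gates on all inputs for one constant `c`, then `NP` is contained in
`P/poly`. So `NP ⊄ P/poly` if and only if the complexity of `HalfClique` on layers of `w` slices is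
not bounded by `n ^ (w + O(1))`; a lower bound `n ^ (w + ω(1))` for any thickness `w = w(n)` and any
`t = t(n)` implies `NP ⊄ P/poly`, the lower bound `2 ^ (w ^ (1 / 9))` holds.

The upper bound is by recursion on `w`: a function `f` which is monotone, restricted to the slices
`m, ..., m + k` and continued by `0` below and by `1` above these slices, is computed by a circuit
with literals for `f` in which the literal `¬ x i` is replaced by the value at `x - i` of the
function which belongs in the same way to the slices `m, ..., m + k - 1`. The `2 ^ t` layers of `w`
slices each are put together by `t` NOT gates. The lower bound embeds a small half-clique problem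
into a thin layer; for it lower bounds of the form `2 ^ (number of NOT gates) > N / polylog` are in
the helper modules `H520R2`, `H560R2` of earlier helpers.
-/

set_option autoImplicit false

namespace Pool.Agent.Results.MP_79d702_lc.SliceMagnification

open Pool.Agent.NPC Pool.Agent.H520R2.HC Pool.Agent.W954.Sav

/-- (1) For every monotone `NP`-complete language `L` and all constants `k`, `c` the following are
equivalent: `NP` is contained in `P/poly`; for some `a`, for all `n` and `m` there is a circuit
without NOT gates and with at most `n ^ a + a` gates which decides `L` on the inputs of length `n`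
with `m` to `m + k` ones; for some `a`, for all `n`, `m`, `w`, `t` there is a circuit with at most
`t` NOT gates and at most `(n + 2) ^ (w + a)` gates which decides `L` on the inputs of length `n`
with at least `m` and less than `m + w 2 ^ t` ones; for some `a`, for all `n` there is a circuit with
at most `⌈log (n + 1)⌉ - c` NOT gates and at most `n ^ a + a` gates which decides `L` on all inputs
of length `n`. (2) `HalfClique` is a monotone `NP`-complete language. (3) For all large `d` and all
`n`, `m`, `t`: if `100 * 2 ^ t * d ^ 9 ≤ n` and `2 n / 5 ≤ m ≤ n / 2` then every circuit with at most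
`t` NOT gates which decides `HalfClique` on the inputs of length `n` with at least `m` and less than
`m + 2 ^ t * d ^ 9` ones has more than `2 ^ d` gates. -/
theorem result :
    (∀ L : Set (List Bool), InNP L → NPHard L → MonoLang L → ∀ k c : ℕ, List.TFAE [
      ∀ L', InNP L' → InPpoly L',
      ∃ a : ℕ, ∀ n m, ∃ C : Circuit n, C.nots = 0 ∧ C.size ≤ n ^ a + a ∧
        ∀ x, m ≤ wt x → wt x ≤ m + k → (C.eval x = true ↔ List.ofFn x ∈ L),
      ∃ a : ℕ, ∀ n m w t, ∃ C : Circuit n, C.nots ≤ t ∧ C.size ≤ (n + 2) ^ (w + a) ∧
        ∀ x, m ≤ wt x → wt x < m + w * 2 ^ t → (C.eval x = true ↔ List.ofFn x ∈ L),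
      ∃ a : ℕ, ∀ n, ∃ C : Circuit n, C.nots ≤ Nat.clog 2 (n + 1) - c ∧ C.size ≤ n ^ a + a ∧
        ∀ x, C.eval x = true ↔ List.ofFn x ∈ L]) ∧
    (InNP HalfClique ∧ NPHard HalfClique ∧ MonoLang HalfClique) ∧
    ∃ d₀, ∀ d ≥ d₀, ∀ n t m, 100 * (2 ^ t * d ^ 9) ≤ n → 2 * n ≤ 5 * m → 2 * m ≤ n →
      ∀ C : Circuit n, C.nots ≤ t →
      (∀ x, m ≤ wt x → wt x < m + 2 ^ t * d ^ 9 →
        (C.eval x = true ↔ List.ofFn x ∈ HalfClique)) → 2 ^ d < C.size :=
  ⟨fun _ h1 h2 h3 k c => tfae_nonuniform h1 h2 h3 k c,
    ⟨inNP_halfClique, npHard_halfClique, monoLang_halfClique⟩, lower_exp⟩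

end Pool.Agent.Results.MP_79d702_lc.SliceMagnification
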