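import Pool.Agent.W935.HR2
import Pool.Agent.H520R2.HalfClique

/-!
Formulas with few NOT gates for an NP-complete problem.

`HalfClique` is the language of the words `x` that code a graph on `n = ⌊√|x|⌋` vertices (for
`a < b` the pair `a, b` is an edge if the bit number `a * n + b` is one) which has a clique
containing at least half of the vertices. It is `NP`-complete.

The algorithms considered here are formulas with AND, OR and arbitrary gates (for instance NOT gates)
whose leaves are threshold bits of input bits or of gates of one common monotone real circuit, in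
which every gate computes an arbitrary nondecreasing real function of two values. So ordinary
formulas with arbitrary gates are covered, and everything below the arbitrary gates may be shared and
may even be computed by monotone real gates. An algorithm of this kind for `HalfClique` on
`{0,1} ^ N` of polynomial size has more than `N ^ α` NOT gates, for every `α < 1` and large `N`. This
is nearly optimal: every function of `N` bits that has polynomial size formulas has such formulas
with at most `⌈N / 2⌉` NOT gates (Nechiporuk, Morizumi).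

The proof: cut the formula at the arbitrary gates and at the places where two of the remaining parts
meet. So its value is an arbitrary function of `5 t + 1` monotone functions, computed by one small
monotone real circuit, if `t` is the total fan-in of the arbitrary gates. A chain of graphs without
large cliques is built from disjoint copies of the problem POLY: if no such graph in the current copy
changes one of the monotone functions, then the OR of those of them that are `0` would be a small
monotone real circuit for POLY, which is impossible by Jukna's method.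
-/

namespace Pool.Agent.Results.MP_79d702_lc.ZFormulaNegations

open Pool.Agent.H520R2.HC Pool.Agent.NPC

/-- Formulas: leaves, AND, OR, and arbitrary gates `any w op a` that apply an arbitrary Boolean
function `op` to `w` formulas `a 0, ..., a (w-1)` (for instance NOT gates, with `w = 1`). -/
inductive Formula (V : Type) : Type
  | var (v : V) : Formula V
  | and (a b : Formula V) : Formula V
  | or (a b : Formula V) : Formula V
  | any (w : ℕ) (op : (Fin w → Bool) → Bool) (a : Fin w → Formula V) : Formula V

/-- the value on the input `x` -/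
def Formula.eval {V : Type} : Formula V → (V → Bool) → Bool
  | .var v, x => x v
  | .and a b, x => a.eval x && b.eval x
  | .or a b, x => a.eval x || b.eval x
  | .any _ op a, x => op (fun i => (a i).eval x)

/-- the number of leaves -/
def Formula.leaves {V : Type} : Formula V → ℕ
  | .var _ => 1
  | .and a b => a.leaves + b.leaves
  | .or a b => a.leaves + b.leaves
  | .any _ _ a => ∑ i, (a i).leaves

/-- the total fan-in of the arbitrary gates, in particular the number of NOT gates if all of them
are NOT gates -/
def Formula.free {V : Type} : Formula V → ℕ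
  | .var _ => 0
  | .and a b => a.free + b.free
  | .or a b => a.free + b.free
  | .any w _ a => w + ∑ i, (a i).free

/-- the input bits as real numbers -/
noncomputable def bits {N : ℕ} (x : Fin N → Bool) : Fin N → ℝ :=
  fun p => if x p = true then 1 else 0

/-- A formula `top` over the threshold bits of a monotone real circuit with `N` input bits. The
circuit has the gates `i : Fin s`; gate `i` computes a nondecreasing real function `op i` of `l i`
and `r i`, each an input bit or an earlier gate. The leaves of the formula are the bits that tell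
whether `θ` is at most the value of `z`, where `θ` is a real number and `z` is an input bit or a
gate. -/
structure Algorithm (N : ℕ) where
  s : ℕ
  op : Fin s → ℝ → ℝ → ℝ
  mono : ∀ i a a' b b', a ≤ a' → b ≤ b' → op i a b ≤ op i a' b'
  l : Fin s → Fin N ⊕ Fin s
  r : Fin s → Fin N ⊕ Fin s
  earlier : ∀ i k, l i = Sum.inr k ∨ r i = Sum.inr k → k < i
  val : (Fin N → Bool) → Fin s → ℝ
  spec : ∀ x i, val x i =
    op i (Sum.elim (bits x) (val x) (l i)) (Sum.elim (bits x) (val x) (r i))
  top : Formula ((Fin N ⊕ Fin s) × ℝ)

open Classical in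
/-- the output on the input `x` -/
noncomputable def Algorithm.output {N : ℕ} (C : Algorithm N) (x : Fin N → Bool) : Bool :=
  C.top.eval (fun p => decide (p.2 ≤ Sum.elim (bits x) (C.val x) p.1))

/-- the size: number of gates of the monotone real circuit plus number of leaves of the formula -/
def Algorithm.size {N : ℕ} (C : Algorithm N) : ℕ := C.s + C.top.leaves

/-- the number of NOT gates (total fan-in of the arbitrary gates) -/
def Algorithm.nots {N : ℕ} (C : Algorithm N) : ℕ := C.top.free

lemma conv {V : Type} (ψ : Formula V) : ∃ χ : Pool.Agent.H560R2.GF V,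
    (∀ x, χ.eval x = ψ.eval x) ∧ χ.leaves = ψ.leaves ∧ χ.free = ψ.free := by
  induction ψ with
  | var v => exact ⟨.var v, fun _ => rfl, rfl, rfl⟩
  | and a b iha ihb =>
    obtain ⟨a', a1, a2, a3⟩ := iha
    obtain ⟨b', b1, b2, b3⟩ := ihb
    refine ⟨.and a' b', fun x => ?_, ?_, ?_⟩
    · simp only [Pool.Agent.H560R2.GF.eval, Formula.eval, a1, b1]
    · simp only [Pool.Agent.H560R2.GF.leaves, Formula.leaves, a2, b2]
    · simp only [Pool.Agent.H560R2.GF.free, Formula.free, a3, b3]
  | or a b iha ihb =>
    obtain ⟨a', a1, a2, a3⟩ := iha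
    obtain ⟨b', b1, b2, b3⟩ := ihb
    refine ⟨.or a' b', fun x => ?_, ?_, ?_⟩
    · simp only [Pool.Agent.H560R2.GF.eval, Formula.eval, a1, b1]
    · simp only [Pool.Agent.H560R2.GF.leaves, Formula.leaves, a2, b2]
    · simp only [Pool.Agent.H560R2.GF.free, Formula.free, a3, b3]
  | any w op a ih =>
    choose a' a1 a2 a3 using ih
    refine ⟨.any w op a', fun x => ?_, ?_, ?_⟩
    · simp only [Pool.Agent.H560R2.GF.eval, Formula.eval, a1]
    · simp only [Pool.Agent.H560R2.GF.leaves, Formula.leaves, a2]
    · simp only [Pool.Agent.H560R2.GF.free, Formula.free, a3]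

/-- the explicit bound -/
theorem explicit (N d : ℕ) (C : Algorithm N) (hd : 2 ≤ d)
    (hN : 2 ^ 64 * (Nat.log 2 d + 1) ^ 8 * d ^ 16 ≤ N)
    (hC : ∀ x, C.output x = true ↔ List.ofFn x ∈ HalfClique) (hsize : 4 * C.size < 2 ^ d) :
    N / (2 ^ 23 * (Nat.log 2 d + 1) ^ 2 * d ^ 4) ≤ 5 * C.nots + 1 := by
  obtain ⟨χ, h1, h2, h3⟩ := conv C.top
  rw [Algorithm.nots, ← h3]
  refine Pool.Agent.W935.HR.half_hybrid d hd hN C.op C.mono C.l C.r C.earlier C.val ?_ χ C.output
    ?_ hC ?_
  · intro x i
    exact C.spec x i
  · intro x
    rw [Algorithm.output, h1]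
    rfl
  · rw [h2]
    rw [Algorithm.size] at hsize
    omega

/-- **Formulas with few NOT gates for an NP-complete problem.**

(1), (2) `HalfClique` is `NP`-complete. (3) Let `d ≥ 2` and
`N ≥ 2 ^ 64 (⌊log₂ d⌋ + 1) ^ 8 d ^ 16`. If an algorithm of size less than `2 ^ d / 4` decides
`HalfClique` on `{0,1} ^ N`, then its number `t` of NOT gates satisfies
`⌊N / (2 ^ 23 (⌊log₂ d⌋ + 1) ^ 2 d ^ 4)⌋ ≤ 5 t + 1`. (4) For all `k` and `0 ≤ α < 1` and all large
`N`, each algorithm of size at most `N ^ k` which decides `HalfClique` on `{0,1} ^ N` has at least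
`N ^ α` NOT gates. -/
theorem result : InNP HalfClique ∧ NPHard HalfClique ∧
    (∀ (N d : ℕ) (C : Algorithm N), 2 ≤ d → 2 ^ 64 * (Nat.log 2 d + 1) ^ 8 * d ^ 16 ≤ N →
      (∀ x, C.output x = true ↔ List.ofFn x ∈ HalfClique) → 4 * C.size < 2 ^ d →
      N / (2 ^ 23 * (Nat.log 2 d + 1) ^ 2 * d ^ 4) ≤ 5 * C.nots + 1) ∧
    ∀ (k : ℕ) (α : ℝ), 0 ≤ α → α < 1 → ∃ N0 : ℕ, ∀ N : ℕ, N0 ≤ N → ∀ C : Algorithm N,
      (∀ x, C.output x = true ↔ List.ofFn x ∈ HalfClique) → C.size ≤ N ^ k →
      (N : ℝ) ^ α ≤ C.nots := by
  refine ⟨inNP_halfClique, npHard_halfClique, fun N d C hd hN hC hsize =>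
    explicit N d C hd hN hC hsize, ?_⟩
  intro k α hα hα1
  obtain ⟨N0, hN0⟩ := Pool.Agent.W935.HR.params1 k α hα hα1
  refine ⟨N0, fun N hN C hC hsize => ?_⟩
  obtain ⟨d, hd1, hd2, hd3, hd4⟩ := hN0 N hN
  have h := explicit N d C hd1 hd3 hC (by
    have : 4 * C.size ≤ 4 * N ^ k := Nat.mul_le_mul_left _ hsize
    omega)
  have h' : ((N / (2 ^ 23 * (Nat.log 2 d + 1) ^ 2 * d ^ 4) : ℕ) : ℝ) ≤ 5 * (C.nots : ℝ) + 1 := by
    exact_mod_cast h
  linarith

end Pool.Agent.Results.MP_79d702_lc.ZFormulaNegations
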